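import Pool.Agent.Work.MP_db9399_x5_helper44.Step5
import Pool.Agent.Work.MP_db9399_iv_helper72.LOCB3

/-!
# MP_db9399, block LOCB5: assembly (helper44)
-/

set_option autoImplicit false

namespace Pool.Agent.Work.MP_db9399_x5_helper44

open Finset Classical
open Pool.Agent.Work.MP_db9399_all (nb)
open Pool.Agent.Work.MP_db9399_lt (us)
open Pool.Agent.Work.MP_db9399_da
open Pool.Agent.Work.MP_db9399_x4
open Pool.Agent.Work.MP_db9399_x4_helper44
open Pool.Agent.Work.MP_db9399_x5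

universe u

section asm
variable {V : Type u} [Fintype V]
variable {G : SimpleGraph V} {d K : ℕ} {C ρ π κ θ θ3 : ℝ} {sd pt : V → Bool}
  {Q : Bool → Finset ℕ} {P2 : Finset ℕ} {F : V → Finset ℕ} {c0 c1 : V → ℕ}
  {T1 T2 : Finset V} {E : Finset (V × V × ℕ)} {g : ℕ → ℤ}

lemma sgp_Q (hL : LB5 G d K C ρ π κ θ sd pt Q P2 F c0 c1 T1 T2)
    (hX : XE G sd pt P2 (BadS F c1 T2) ⌊1000 * θ * d⌋₊ E) (i : Bool) (b : ℕ) (hb : b ∈ Q (!i)) :
    sgp (Fp' F E) sd pt i b = sg F sd b := by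
  have hbP : b ∉ P2 := disjoint_left.1 (hL.QP _) hb
  have h1 : sgp (Fp' F E) sd pt i b = sgp F sd pt i b := by
    unfold sgp
    rw [hX.us_eq F hbP]
  have h2 : sgp F sd pt (!i) b = 0 := by
    have h3 : ∀ β, qtr sd pt β (!i) ∩ us F b = ∅ := by
      intro β
      refine eq_empty_of_forall_notMem fun v hv => ?_
      obtain ⟨hv1, hv2⟩ := mem_inter.1 hv
      have h4 := hL.FQ v
      rw [(mem_qtr.1 hv1).2] at h4
      exact disjoint_left.1 h4 (mem_us.1 hv2) hb
    unfold sgp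
    rw [h3, h3]
    simp
  rw [h1, sg_split F sd pt b]
  cases i
  · rw [show (!false) = true from rfl] at h2
    rw [h2, add_zero]
  · rw [show (!true) = false from rfl] at h2
    rw [h2, zero_add]

lemma bnd (hL : LB5 G d K C ρ π κ θ sd pt Q P2 F c0 c1 T1 T2)
    (hg : ∀ b ∈ P2, |g b| ≤ ((4 * K + 1 : ℕ) : ℤ))
    (h0 : ∀ b ∈ P2, sgp (Fp' F E) sd pt false b = g b)
    (h1 : ∀ b ∈ P2, sgp (Fp' F E) sd pt true b = sg F sd b - g b) (i : Bool) (b : ℕ)
    (hb : b ∈ P2) : |sgp (Fp' F E) sd pt i b| ≤ 5 * K + 1 := by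
  have h2 := hg b hb
  have h3 := hL.sgK b (mem_union_right _ hb)
  rw [abs_le] at h2 h3
  push_cast at h2
  cases i
  · rw [h0 b hb, abs_le]
    constructor <;> linarith [h2.1, h2.2, h3.1, h3.2]
  · rw [h1 b hb, abs_le]
    constructor <;> linarith [h2.1, h2.2, h3.1, h3.2]

lemma mkLI3 (hL : LB5 G d K C ρ π κ θ sd pt Q P2 F c0 c1 T1 T2) (hN : NumB d K ρ π θ θ3)
    (hκ : κ ≤ π / 4) (hK : 1 ≤ K) (hρ : 0 < ρ) (hπK : π * (10 ^ 4 * K) ≤ ρ)
    (hX : XE G sd pt P2 (BadS F c1 T2) ⌊1000 * θ * d⌋₊ E)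
    (hc : ∀ b ∈ P2, cnt pt E false b + cnt pt E true b ≤ ⌊2 * θ * d⌋₊)
    (hg : ∀ b ∈ P2, |g b| ≤ ((4 * K + 1 : ℕ) : ℤ))
    (h0 : ∀ b ∈ P2, sgp (Fp' F E) sd pt false b = g b)
    (h1 : ∀ b ∈ P2, sgp (Fp' F E) sd pt true b = sg F sd b - g b) :
    LI3 (Gp G E) d C (ρ / 2) π κ θ3 (ρ / 2 / 100) sd pt Q P2 (Fp' F E) := by
  have hd := num_d hN
  have hθ := hN.θ0
  have hB : ∀ b, us F b ⊆ BadS F c1 T2 b := fun b => subset_union_left
  have hΔ : ((⌊1000 * θ * d⌋₊ : ℕ) : ℝ) ≤ 1000 * θ * d := Nat.floor_le (by positivity)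
  have hμ : ((⌊2 * θ * d⌋₊ : ℕ) : ℝ) ≤ 2 * θ * d := Nat.floor_le (by positivity)
  have hθ3 : 2000 * θ * d ≤ θ3 * d := mul_le_mul_of_nonneg_right hN.θt hd.le
  have hθd : 0 < θ * d := by positivity
  have hK0 : (1 : ℝ) ≤ K := by exact_mod_cast hK
  have bP : ∀ i, ∀ b ∈ P2, |((sgp (Fp' F E) sd pt i b : ℤ) : ℝ)| ≤ 5 * K + 1 := by
    intro i b hb
    have := bnd hL hg h0 h1 i b hb
    exact_mod_cast this
  have bQ : ∀ i, ∀ b ∈ Q (!i), |((sgp (Fp' F E) sd pt i b : ℤ) : ℝ)| ≤ K := by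
    intro i b hb
    rw [sgp_Q hL hX i b hb]
    have h2 : b ∈ Q false ∪ Q true ∪ P2 := by
      refine mem_union_left _ ?_
      cases i
      · exact mem_union_right _ hb
      · exact mem_union_left _ hb
    have := hL.sgK b h2
    exact_mod_cast this
  refine ⟨hL.VC, ?_, ?_, ?_, hL.Qlt, hL.Plt, hL.QQ, hL.QP, hL.Qc, hL.Pc, ?_, ?_, ?_, ?_, ?_⟩
  · intro v b hb
    rcases mem_union.1 hb with hb | hb
    · exact hL.Flt v b hb
    · obtain ⟨w, hw⟩ := mem_colE.1 hb
      exact mem_range.1 (hL.Plt (hX.info hw).2.2.2.1)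
  · intro v
    have h2 : ((Fp' F E v).card : ℝ) ≤ (F v).card + (colE E v).card := by
      exact_mod_cast card_union_le _ _
    have h3 : ((colE E v).card : ℝ) ≤ (⌊1000 * θ * d⌋₊ : ℕ) := by exact_mod_cast hX.col_card v
    have h4 := hL.Fx v
    linarith
  · intro b
    by_cases hb : b ∈ P2
    · have h2 := hX.us_card hB univ b
      rw [univ_inter, univ_inter] at h2
      have h3 : (univ.filter (fun v => b ∈ colE E v)).card ≤
          2 * (E.filter (fun p => p.2.2 = b)).card := by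
        have h4 : univ.filter (fun v => b ∈ colE E v) ⊆
            (E.filter (fun p => p.2.2 = b)).image (fun p => p.1) ∪
              (E.filter (fun p => p.2.2 = b)).image (fun p => p.2.1) := by
          intro v hv
          obtain ⟨w, hw | hw⟩ := mem_colE.1 (mem_filter.1 hv).2
          · exact mem_union_left _ (mem_image.2 ⟨_, mem_filter.2 ⟨hw, rfl⟩, rfl⟩)
          · exact mem_union_right _ (mem_image.2 ⟨_, mem_filter.2 ⟨hw, rfl⟩, rfl⟩)
        have h5 := (card_le_card h4).trans (card_union_le _ _)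
        have h6 : ((E.filter (fun p => p.2.2 = b)).image (fun p => p.1)).card ≤
          (E.filter (fun p => p.2.2 = b)).card := card_image_le
        have h7 : ((E.filter (fun p => p.2.2 = b)).image (fun p => p.2.1)).card ≤
          (E.filter (fun p => p.2.2 = b)).card := card_image_le
        omega
      rw [cnt_col pt] at h3
      have h4 := hc b hb
      have h5 : (us (Fp' F E) b).card ≤ (us F b).card + 2 * ⌊2 * θ * d⌋₊ := by omega
      have h6 : ((us (Fp' F E) b).card : ℝ) ≤ (us F b).card + 2 * (⌊2 * θ * d⌋₊ : ℕ) := by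
        exact_mod_cast h5
      have h7 := hL.load b
      linarith
    · rw [hX.us_eq F hb]
      have h7 := hL.load b
      linarith
  · intro v
    refine disjoint_union_left.2 ⟨hL.FQ v, disjoint_left.2 fun b hb hb' => ?_⟩
    obtain ⟨w, hw⟩ := mem_colE.1 hb
    exact disjoint_left.1 (hL.QP _) hb' (hX.info hw).2.2.2.1
  · intro i b hb
    have h2 := hN.d3
    rcases mem_union.1 hb with hb | hb
    · have := bQ i b hb
      linarith
    · exact (bP i b hb).trans h2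
  · intro i
    have hdj : Disjoint (Q (!i)) P2 := hL.QP _
    rw [sum_union hdj]
    have e1 : ∑ b ∈ Q (!i), |((sgp (Fp' F E) sd pt i b : ℤ) : ℝ)| ≤ (Q (!i)).card * K := by
      rw [← nsmul_eq_mul]
      exact sum_le_card_nsmul _ _ _ (bQ i)
    have e2 : ∑ b ∈ P2, |((sgp (Fp' F E) sd pt i b : ℤ) : ℝ)| ≤ P2.card * (5 * K + 1) := by
      rw [← nsmul_eq_mul]
      exact sum_le_card_nsmul _ _ _ (bP i)
    have e3 : ((Q (!i)).card : ℝ) * K ≤ (2 * κ * d) * K :=
      mul_le_mul_of_nonneg_right (hL.Qc _).2 (by linarith)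
    have e4 : (P2.card : ℝ) * (5 * K + 1) ≤ (2 * π * d) * (6 * K) :=
      mul_le_mul hL.Pc.2 (by linarith) (by linarith) (by have := hN.π0; positivity)
    have e5 : (2 * κ * d) * K ≤ (π / 2 * d) * K := by
      refine mul_le_mul_of_nonneg_right ?_ (by linarith)
      have := mul_le_mul_of_nonneg_right hκ hd.le
      linarith
    have e6 : π * (10 ^ 4 * K) * d ≤ ρ * d := mul_le_mul_of_nonneg_right hπK hd.le
    have e7 : 0 ≤ π * K * d := by have := hN.π0; positivity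
    have e8 : (π / 2 * d) * K = π * K * d / 2 := by ring
    have e9 : (2 * π * d) * (6 * K) = 12 * (π * K * d) := by ring
    have e10 : π * (10 ^ 4 * K) * d = 10 ^ 4 * (π * K * d) := by ring
    rw [e10] at e6
    rw [e8] at e5
    rw [e9] at e4
    linarith
  · intro S
    refine hX.cut hρ ?_ hL.cutG S
    obtain ⟨u, _, _⟩ := ex_true hL hN false
    have h2 : (nb G u).card ≤ Fintype.card V := card_le_univ _
    have h3 : ((nb G u).card : ℝ) ≤ Fintype.card V := by exact_mod_cast h2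
    have h4 : ((nb G u).card : ℝ) + (F u).card = d := by exact_mod_cast hL.deg u
    have h5 := hL.Fx u
    have h6 := mul_le_mul_of_nonneg_right hN.θρ hd.le
    have h7 := mul_le_mul_of_nonneg_right hN.ρ1 hd.le
    have h8 : (d : ℝ) / 2 ≤ Fintype.card V := by linarith
    have h9 : ρ / 4 * (d / 2) ≤ ρ / 4 * Fintype.card V :=
      mul_le_mul_of_nonneg_left h8 (by linarith)
    linarith
  · intro i S hS
    have h2 := hL.cutP i S hS
    have h3 : ρ / 2 * S.card * (prt pt i \ S).card ≤ ρ * S.card * (prt pt i \ S).card := by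
      refine mul_le_mul_of_nonneg_right (mul_le_mul_of_nonneg_right (by linarith)
        (Nat.cast_nonneg _)) (Nat.cast_nonneg _)
    refine (h3.trans h2).trans (le_of_eq (sum_congr rfl fun v hv => ?_))
    have hv1 : pt v = i := mem_prt.1 (hS hv)
    have h4 := hX.nb_part v
    rw [hv1] at h4
    congr 2
    ext w
    have h5 : w ∈ nb (Gp G E) v ∩ prt pt i ↔ w ∈ nb G v ∩ prt pt i := by rw [h4]
    simp only [mem_inter, mem_sdiff, mem_qtr, mem_prt] at h5 ⊢
    tauto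

lemma mkLB3 (hL : LB5 G d K C ρ π κ θ sd pt Q P2 F c0 c1 T1 T2) (hN : NumB d K ρ π θ θ3)
    (hρ : 0 < ρ)
    (hX : XE G sd pt P2 (BadS F c1 T2) ⌊1000 * θ * d⌋₊ E)
    (hg : ∀ b ∈ P2, |g b| ≤ ((4 * K + 1 : ℕ) : ℤ))
    (hgs : ∑ b ∈ P2, g b = ((T1 ∩ qtr sd pt false false).card : ℤ) -
        (T1 ∩ qtr sd pt true false).card - ∑ b ∈ Q true, sg F sd b)
    (h0 : ∀ b ∈ P2, sgp (Fp' F E) sd pt false b = g b)
    (h1 : ∀ b ∈ P2, sgp (Fp' F E) sd pt true b = sg F sd b - g b) :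
    LB3 (Gp G E) d (ρ / 2) θ3 sd pt Q P2 (Fp' F E) c0 c1 T1 T2 := by
  have hd := num_d hN
  have hθ := hN.θ0
  have hB : ∀ b, us F b ⊆ BadS F c1 T2 b := fun b => subset_union_left
  have hΔ : ((⌊1000 * θ * d⌋₊ : ℕ) : ℝ) ≤ 1000 * θ * d := Nat.floor_le (by positivity)
  have hθ3 : 2000 * θ * d ≤ θ3 * d := mul_le_mul_of_nonneg_right hN.θt hd.le
  have hθd : 0 < θ * d := by positivity
  have hP1 : ∀ b ∈ P1 d Q P2, b ∉ P2 := fun b hb h =>
    (mem_sdiff.1 hb).2 (mem_union_right _ h)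
  have hneed : ∀ β, ∀ b ∈ P1 d Q P2, need (Fo T1 c1 (Fp' F E)) sd β b =
      need (Fo T1 c1 F) sd β b := by
    intro β b hb
    have h2 : us (Fo T1 c1 (Fp' F E)) b = us (Fo T1 c1 F) b := by
      ext v
      have h3 : b ∈ Fp' F E v ↔ b ∈ F v := by
        rw [← mem_us, ← mem_us (F := F), hX.us_eq F (hP1 b hb)]
      simp only [mem_us]
      unfold Fo
      split_ifs
      · simp only [mem_insert, h3]
      · exact h3
    unfold need
    rw [h2]
  have hW : ∑ b ∈ Q false ∪ Q true ∪ P2, sg F sd b =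
      ((T1 ∩ sid sd false).card : ℤ) - (T1 ∩ sid sd true).card +
        ((∑ b ∈ P1 d Q P2, need (Fo T1 c1 F) sd false b : ℕ) : ℤ) -
        ((∑ b ∈ P1 d Q P2, need (Fo T1 c1 F) sd true b : ℕ) : ℤ) := by
    have heq : (sid sd false).card = (sid sd true).card := by
      have h1 := side_card sd pt false univ
      have h2 := side_card sd pt true univ
      simp only [univ_inter] at h1 h2
      rw [h1, h2, hL.eqs false, hL.eqs true]
    exact sum_sg_last5 G d sd F Q P2 c1 T1 hL.bip hL.deg hL.Flt heq hL.Qlt hL.Plt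
      (fun v hv => hL.c1F v (mem_union_left _ hv)) hL.c1P
  have hWs : ∑ b ∈ Q false ∪ Q true ∪ P2, sg F sd b =
      ∑ b ∈ Q false, sg F sd b + ∑ b ∈ Q true, sg F sd b + ∑ b ∈ P2, sg F sd b := by
    rw [sum_union (disjoint_union_left.2 ⟨hL.QP _, hL.QP _⟩), sum_union hL.QQ]
  refine ⟨fun v w h => hL.bip v w h.1, ?_, ?_, hL.eqs, hL.siz, hL.T12, hL.c0Q, hL.c1P, hL.c2P, ?_,
    fun v w h => hL.pc v w h.1, ?_, ?_, ?_, ?_, ?_, ?_, ?_⟩
  · intro v
    rw [hX.deg hB]
    exact hL.deg v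
  · intro v i
    have h2 := hL.dgp v i
    have h3 : (nb G v ∩ prt pt i).card ≤ (nb (Gp G E) v ∩ prt pt i).card + (nbE E v).card := by
      refine le_trans (card_le_card ?_) (card_union_le _ _)
      intro w hw
      rw [nb_Gp]
      simp only [mem_union, mem_inter, mem_sdiff] at hw ⊢
      tauto
    have h4 : (nb (Gp G E) v ∩ prt pt i).card ≤ (nb G v ∩ prt pt i).card := by
      refine card_le_card ?_
      intro w hw
      rw [nb_Gp] at hw
      simp only [mem_inter, mem_sdiff] at hw ⊢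
      tauto
    have h5 : (nbE E v).card ≤ ⌊1000 * θ * d⌋₊ := (hX.nbE_card v).trans_le (hX.col_card v)
    have h3' : ((nb G v ∩ prt pt i).card : ℝ) ≤
      (nb (Gp G E) v ∩ prt pt i).card + (nbE E v).card := by exact_mod_cast h3
    have h4' : ((nb (Gp G E) v ∩ prt pt i).card : ℝ) ≤ (nb G v ∩ prt pt i).card := by
      exact_mod_cast h4
    have h5' : ((nbE E v).card : ℝ) ≤ (⌊1000 * θ * d⌋₊ : ℕ) := by exact_mod_cast h5
    rw [abs_le] at h2 ⊢
    constructor <;> linarith [h2.1, h2.2]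
  · intro v hv hv'
    rcases mem_union.1 hv' with h | h
    · exact hL.c1F v hv h
    · obtain ⟨w, hw⟩ := mem_colE.1 h
      have hi := hX.info hw
      rcases mem_union.1 hv with hv | hv
      · exact hP1 _ (hL.c1P v hv) hi.2.2.2.1
      · exact hi.2.2.2.2.1 (mem_union_right _ (mem_filter.2 ⟨hv, rfl⟩))
  · intro b
    have := hL.T1c b
    linarith
  · intro β
    rw [sum_congr rfl fun b hb => hneed β b hb]
    have := hL.few β
    linarith
  · intro β
    rw [sum_congr rfl fun b hb => hneed β b hb]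
    exact hL.EX β
  · intro i
    have hf0 := hL.few false
    have hf1 := hL.few true
    have hg0 : (0 : ℝ) ≤ ((∑ b ∈ P1 d Q P2, need (Fo T1 c1 F) sd false b : ℕ) : ℝ) :=
      Nat.cast_nonneg _
    have hg1 : (0 : ℝ) ≤ ((∑ b ∈ P1 d Q P2, need (Fo T1 c1 F) sd true b : ℕ) : ℝ) :=
      Nat.cast_nonneg _
    generalize ∑ b ∈ P1 d Q P2, need (Fo T1 c1 F) sd false b = n0 at hW hf0 hg0
    generalize ∑ b ∈ P1 d Q P2, need (Fo T1 c1 F) sd true b = n1 at hW hf1 hg1
    have hz : ((T1 ∩ qtr sd pt false i).card : ℤ) - (T1 ∩ qtr sd pt true i).card -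
        ∑ b ∈ Q (!i) ∪ P2, sgp (Fp' F E) sd pt i b = if i then (n1 : ℤ) - n0 else 0 := by
      rw [sum_union (hL.QP _), sum_congr rfl fun b hb => sgp_Q hL hX i b hb]
      cases i
      · rw [sum_congr rfl h0, hgs]
        simp only [Bool.not_false, Bool.false_eq_true, if_false]
        ring
      · rw [sum_congr rfl h1, sum_sub_distrib, hgs]
        simp only [Bool.not_true, if_true]
        rw [hWs] at hW
        rw [side_card sd pt false, side_card sd pt true] at hW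
        push_cast at hW
        linarith
    have hz' : ((T1 ∩ qtr sd pt false i).card : ℝ) - (T1 ∩ qtr sd pt true i).card -
        ((∑ b ∈ Q (!i) ∪ P2, sgp (Fp' F E) sd pt i b : ℤ) : ℝ) =
        if i then (n1 : ℝ) - n0 else 0 := by
      cases i
      · simp only [Bool.false_eq_true, if_false] at hz ⊢
        exact_mod_cast hz
      · simp only [if_true] at hz ⊢
        exact_mod_cast hz
    rw [hz']
    cases i
    · simp only [Bool.false_eq_true, if_false, abs_zero]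
      linarith
    · simp only [if_true]
      rw [abs_le]
      constructor <;> linarith
  · intro v
    rw [hX.nb_part v]
    have h2 := hL.unm v
    have h3 : 0 ≤ ρ * d := by positivity
    linarith
  · intro i b hb
    have h2 := hL.n2 i b hb
    have h3 := bnd hL hg h0 h1 i b hb
    rw [abs_le] at h3
    have h4 : ((5 * K + 5 : ℕ) : ℤ) ≤
      ((T2.filter (fun v => pt v = i ∧ c1 v = b)).card : ℤ) := by exact_mod_cast h2
    push_cast at h4
    linarith [h3.1]
  · intro i b hb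
    rw [sgp_Q hL hX i b hb]
    exact hL.nQ i b hb

end asm

/-- **LOCB5** from LOCB3 -/
theorem locb5 (h3 : Stmt_LOCB3.{u}) : Stmt_LOCB5.{u} := by
  intro C ρ K hC hρ hρ1 hK
  obtain ⟨π1, hπ1, h⟩ := h3 C (ρ / 2) hC (by linarith) (by linarith)
  have hK0 : (1 : ℝ) ≤ K := by exact_mod_cast hK
  refine ⟨min π1 (ρ / (10 ^ 4 * K)), lt_min hπ1 (by positivity), ?_⟩
  intro π hπ hπ0
  have hπ2 : π ≤ ρ / (10 ^ 4 * K) := hπ0.trans (min_le_right _ _)
  have hπK : π * (10 ^ 4 * K) ≤ ρ := (le_div_iff₀ (by positivity)).1 hπ2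
  have hπρ : π ≤ ρ := by nlinarith
  obtain ⟨κ1, hκ1, h⟩ := h π hπ (hπ0.trans (min_le_left _ _))
  refine ⟨min κ1 (π / 4), lt_min hκ1 (by linarith), ?_⟩
  intro κ hκ hκ0
  obtain ⟨θ3, d3, hθ3, h⟩ := h κ hκ (hκ0.trans (min_le_left _ _))
  set θ := min (min (θ3 / 2000) (ρ / 10 ^ 5)) π with hθdef
  have hθ : 0 < θ := lt_min (lt_min (by positivity) (by positivity)) hπ
  have hθ1 : θ ≤ θ3 / 2000 := (min_le_left _ _).trans (min_le_left _ _)
  have hθ2 : θ ≤ ρ / 10 ^ 5 := (min_le_left _ _).trans (min_le_right _ _)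
  have hθπ : θ ≤ π := min_le_right _ _
  refine ⟨θ, max d3 ⌈(10 ^ 4 + 5 * K + 1) / θ⌉₊, hθ, ?_⟩
  intro V _ G d sd pt Q P2 F c0 c1 T1 T2 hd hL
  have hd3 : d3 ≤ d := (le_max_left _ _).trans hd
  have hd4 : (10 ^ 4 + 5 * (K : ℝ) + 1) / θ ≤ d := by
    have h1 : ((⌈(10 ^ 4 + 5 * (K : ℝ) + 1) / θ⌉₊ : ℕ) : ℝ) ≤ d := by
      exact_mod_cast (le_max_right _ _).trans hd
    exact (Nat.le_ceil _).trans h1
  have hd5 : 10 ^ 4 + 5 * (K : ℝ) + 1 ≤ θ * d := by
    rw [div_le_iff₀ hθ] at hd4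
    linarith
  have hd0 : (0 : ℝ) ≤ d := Nat.cast_nonneg _
  have hN : NumB d K ρ π θ θ3 := by
    refine ⟨hρ1, hπ, hθ, hπρ.trans hρ1, hπρ, hθ2, hθπ, by linarith, by linarith, by linarith, ?_,
      ?_⟩
    · have := mul_le_mul_of_nonneg_right hθπ hd0
      linarith
    · have h1 : θ * d ≤ θ3 * d := mul_le_mul_of_nonneg_right (by linarith) hd0
      linarith
  obtain ⟨E, g, hX, hc, hg, hgs, h0, h1⟩ := choice hL hN (hκ0.trans (min_le_right _ _)) hK
  have hLI := mkLI3 hL hN (hκ0.trans (min_le_right _ _)) hK hρ hπK hX hc hg h0 h1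
  have hLB := mkLB3 hL hN hρ hX hg hgs h0 h1
  obtain ⟨c, t, hct, ht⟩ := h (Gp G E) d sd pt Q P2 (Fp' F E) c0 c1 T1 T2 hd3 hLI hLB
  have hB : ∀ b, us F b ⊆ BadS F c1 T2 b := fun b => subset_union_left
  have hcE : ∀ v, c v ∉ colE E v := by
    intro v hv
    obtain ⟨w, hw⟩ := mem_colE.1 hv
    have hi := hX.info hw
    have h2 := hct v
    unfold oc at h2
    have hQ : ∀ i, c v ∈ Q i → False := fun i h' => disjoint_left.1 (hL.QP i) h' hi.2.2.2.1
    split_ifs at h2 with h3 h4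
    · rw [mem_singleton.1 h2] at hi
      exact (mem_sdiff.1 (hL.c1P v h3)).2 (mem_union_right _ hi.2.2.2.1)
    · rcases mem_insert.1 h2 with h5 | h5
      · exact hQ (pt v) (h5 ▸ hL.c0Q v h3)
      · rw [mem_singleton.1 h5] at hi
        exact hi.2.2.2.2.1 (mem_union_right _ (mem_filter.2 ⟨h4, rfl⟩))
    · exact hQ (pt v) ((mem_singleton.1 h2) ▸ hL.c0Q v h3)
  obtain ⟨t', ht'⟩ := hX.pef hB hL.Plt hcE ht
  exact ⟨c, t', hct, ht'⟩

/-- **LOCB5** -/
theorem stmt_LOCB5 : Stmt_LOCB5.{u} := locb5 Pool.Agent.Work.MP_db9399_iv_helper72.stmt_LOCB3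

end Pool.Agent.Work.MP_db9399_x5_helper44
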