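import Pool.Agent.Work.MP_db9399_x4.XF4

/-!
# MP_db9399, H-version: statement of LOCB5 (helper44)

`LB5` is `LB4` with `bal` replaced by `few` and `EX` (as in `LB3`): the rounds of `P1` need not be balanced by
the own colours of `T1`. The sum of the needs of the rounds of `P1` is at most `θ d` on both sides, and for
every missed vertex there is a vertex of `T1 ∪ T2` on the other side. Vertices of the precoloured
matching are in `T1`, with `c1` = prescribed own colour (in `P1`).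
-/

set_option autoImplicit false

namespace Pool.Agent.Work.MP_db9399_x5

open Finset Classical
open Pool.Agent.Work.MP_db9399_all (nb)
open Pool.Agent.Work.MP_db9399_lt (us)
open Pool.Agent.Work.MP_db9399_da

universe u

section loc
variable {V : Type u} [Fintype V]

/-- Input of LOCB5: numbers of the piece, not of the parts. -/
structure LB5 (G : SimpleGraph V) (d K : ℕ) (C ρ π κ θ : ℝ) (sd pt : V → Bool)
    (Q : Bool → Finset ℕ) (P2 : Finset ℕ) (F : V → Finset ℕ) (c0 c1 : V → ℕ)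
    (T1 T2 : Finset V) : Prop where
  VC : (Fintype.card V : ℝ) ≤ C * d
  Flt : ∀ v, ∀ b ∈ F v, b < d + 2
  Fx : ∀ v, ((F v).card : ℝ) ≤ θ * d
  load : ∀ b, ((us F b).card : ℝ) ≤ θ * d
  Qlt : ∀ i, Q i ⊆ range (d + 2)
  Plt : P2 ⊆ range (d + 2)
  QQ : Disjoint (Q false) (Q true)
  QP : ∀ i, Disjoint (Q i) P2
  Qc : ∀ i, κ * d ≤ ((Q i).card : ℝ) ∧ ((Q i).card : ℝ) ≤ 2 * κ * d
  Pc : π * d ≤ (P2.card : ℝ) ∧ (P2.card : ℝ) ≤ 2 * π * d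
  FQ : ∀ v, Disjoint (F v) (Q (pt v))
  sgK : ∀ b ∈ Q false ∪ Q true ∪ P2, |sg F sd b| ≤ (K : ℤ)
  cutG : ∀ S : Finset V, ρ * S.card * (univ \ S).card ≤ ∑ v ∈ S, ((nb G v \ S).card : ℝ)
  cutP : ∀ i, ∀ S ⊆ prt pt i, ρ * S.card * (prt pt i \ S).card ≤
    ∑ v ∈ S, (((nb G v \ S) ∩ qtr sd pt (!(sd v)) i).card : ℝ)
  bip : ∀ v w, G.Adj v w → sd v ≠ sd w
  deg : ∀ v, (nb G v).card + (F v).card = d
  dgp : ∀ v i, |((nb G v ∩ prt pt i).card : ℝ) - d / 2| ≤ θ * d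
  eqs : ∀ i, (qtr sd pt false i).card = (qtr sd pt true i).card
  siz : ∀ i, (qtr sd pt false i).card ≤ (qtr sd pt false (!i)).card + 1
  T12 : Disjoint T1 T2
  c0Q : ∀ v, v ∉ T1 → c0 v ∈ Q (pt v)
  c1P : ∀ v ∈ T1, c1 v ∈ P1 d Q P2
  c2P : ∀ v ∈ T2, sd v = false ∧ c1 v ∈ P2 ∪ Q (!(pt v))
  c1F : ∀ v ∈ T1 ∪ T2, c1 v ∉ F v
  pc : ∀ v w, G.Adj v w → pt v = pt w → Disjoint (oc c0 c1 T1 T2 v) (oc c0 c1 T1 T2 w)
  T1c : ∀ b, ((T1.filter (fun v => c1 v = b)).card : ℝ) ≤ θ * d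
  few : ∀ β, ((∑ b ∈ P1 d Q P2, need (Fo T1 c1 F) sd β b : ℕ) : ℝ) ≤ θ * d
  EX : ∀ β, ∑ b ∈ P1 d Q P2, need (Fo T1 c1 F) sd β b ≤ ((T1 ∪ T2) ∩ sid sd (!β)).card
  hlf : ∀ β, |((T1 ∩ qtr sd pt β false).card : ℝ) - (T1 ∩ qtr sd pt β true).card| ≤ θ * d
  unm : ∀ v, ρ * d ≤ (((nb G v ∩ prt pt (pt v)) \ (T1 ∪ T2)).card : ℝ)
  n2 : ∀ i, ∀ b ∈ P2, 5 * K + 5 ≤ (T2.filter (fun v => pt v = i ∧ c1 v = b)).card
  nQ : ∀ i, ∀ b ∈ Q (!i),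
    0 ≤ ((T2.filter (fun v => pt v = i ∧ c1 v = b)).card : ℤ) + sg F sd b

end loc

/-- LOCB5: LOCB4 with `few` and `EX` instead of `bal`. -/
def Stmt_LOCB5 : Prop :=
  ∀ (C ρ : ℝ) (K : ℕ), 1 ≤ C → 0 < ρ → ρ ≤ 1 → 1 ≤ K → ∃ π0 : ℝ, 0 < π0 ∧
    ∀ π : ℝ, 0 < π → π ≤ π0 → ∃ κ0 : ℝ, 0 < κ0 ∧ ∀ κ : ℝ, 0 < κ → κ ≤ κ0 →
    ∃ (θ : ℝ) (d0 : ℕ), 0 < θ ∧
    ∀ {V : Type u} [Fintype V] (G : SimpleGraph V) (d : ℕ) (sd pt : V → Bool)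
      (Q : Bool → Finset ℕ) (P2 : Finset ℕ) (F : V → Finset ℕ) (c0 c1 : V → ℕ)
      (T1 T2 : Finset V), d0 ≤ d →
      LB5 G d K C ρ π κ θ sd pt Q P2 F c0 c1 T1 T2 →
      ∃ (c : V → ℕ) (t : V → V → ℕ), (∀ v, c v ∈ oc c0 c1 T1 T2 v) ∧
        PEF G d (fun v => insert (c v) (F v)) t

end Pool.Agent.Work.MP_db9399_x5
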