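import Pool.Agent.Work.MP_db9399_x4_helper44.Step
import Pool.Agent.Work.MP_db9399_x5_helper44.Stm

/-!
# MP_db9399, block LOCB5: the step from `LB5` to `LB3` (helper44)
-/

set_option autoImplicit false

namespace Pool.Agent.Work.MP_db9399_x5_helper44

open Finset Classical
open Pool.Agent.Work.MP_db9399_all (nb)
open Pool.Agent.Work.MP_db9399_lt (us)
open Pool.Agent.Work.MP_db9399_da
open Pool.Agent.Work.MP_db9399_x4
open Pool.Agent.Work.MP_db9399_x4_helper44
open Pool.Agent.Work.MP_db9399_x5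

universe u

section step
variable {V : Type u} [Fintype V]
variable {G : SimpleGraph V} {d K : ℕ} {C ρ π κ θ θ3 : ℝ} {sd pt : V → Bool}
  {Q : Bool → Finset ℕ} {P2 : Finset ℕ} {F : V → Finset ℕ} {c0 c1 : V → ℕ}
  {T1 T2 : Finset V}

/-- the signed numbers of the colours outside `P1`, with needs -/
lemma sum_sg_last5 (G : SimpleGraph V) (d : ℕ) (sd : V → Bool) (F : V → Finset ℕ)
    (Q : Bool → Finset ℕ) (P2 : Finset ℕ) (c1 : V → ℕ) (T1 : Finset V)
    (hbip : ∀ v w, G.Adj v w → sd v ≠ sd w) (hdeg : ∀ v, (nb G v).card + (F v).card = d)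
    (hF : ∀ v, ∀ b ∈ F v, b < d + 2) (heq : (sid sd false).card = (sid sd true).card)
    (hQ : ∀ i, Q i ⊆ range (d + 2)) (hP : P2 ⊆ range (d + 2))
    (hc : ∀ v ∈ T1, c1 v ∉ F v) (hP1 : ∀ v ∈ T1, c1 v ∈ P1 d Q P2) :
    ∑ b ∈ Q false ∪ Q true ∪ P2, sg F sd b =
      ((T1 ∩ sid sd false).card : ℤ) - (T1 ∩ sid sd true).card +
        ((∑ b ∈ P1 d Q P2, need (Fo T1 c1 F) sd false b : ℕ) : ℤ) -
        ((∑ b ∈ P1 d Q P2, need (Fo T1 c1 F) sd true b : ℕ) : ℤ) := by
  have h0 := sum_sg G d sd F hbip hdeg hF heq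
  have hsub : Q false ∪ Q true ∪ P2 ⊆ range (d + 2) :=
    union_subset (union_subset (hQ false) (hQ true)) hP
  rw [← sum_sdiff hsub] at h0
  change ∑ b ∈ P1 d Q P2, sg F sd b + _ = 0 at h0
  have h1 : ∀ b ∈ P1 d Q P2, sg F sd b =
      (((T1 ∩ sid sd true).filter (fun v => c1 v = b)).card : ℤ) -
        ((T1 ∩ sid sd false).filter (fun v => c1 v = b)).card +
        ((need (Fo T1 c1 F) sd true b : ℕ) : ℤ) - ((need (Fo T1 c1 F) sd false b : ℕ) : ℤ) := by
    intro b hb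
    have e3 := us_Fo_card F T1 c1 hc (sid sd false) b
    have e4 := us_Fo_card F T1 c1 hc (sid sd true) b
    unfold need
    simp only [Bool.not_false, Bool.not_true]
    unfold sg
    omega
  have h2 : ∀ β : Bool, ∑ b ∈ P1 d Q P2,
      (((T1 ∩ sid sd β).filter (fun v => c1 v = b)).card : ℤ) = (T1 ∩ sid sd β).card := by
    intro β
    rw [← Nat.cast_sum]
    congr 1
    exact (card_eq_sum_card_fiberwise (f := c1) (fun v hv =>
      mem_coe.2 (hP1 v (mem_inter.1 (mem_coe.1 hv)).1))).symm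
  rw [sum_congr rfl h1, sum_sub_distrib, sum_add_distrib, sum_sub_distrib, h2, h2] at h0
  push_cast
  linarith

lemma P2_ne (hL : LB5 G d K C ρ π κ θ sd pt Q P2 F c0 c1 T1 T2) (hN : NumB d K ρ π θ θ3) :
    P2.Nonempty := by
  rw [← card_pos]
  have h1 := hL.Pc.1
  have h2 := mul_pos hN.π0 (num_d hN)
  have h3 : (0 : ℝ) < P2.card := by linarith
  exact_mod_cast h3

/-- vertices of the side `true` in every part -/
lemma ex_true (hL : LB5 G d K C ρ π κ θ sd pt Q P2 F c0 c1 T1 T2) (hN : NumB d K ρ π θ θ3)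
    (j : Bool) : ∃ u, sd u = true ∧ pt u = j := by
  obtain ⟨b, hb⟩ := P2_ne hL hN
  have h1 := hL.n2 false b hb
  have h2 : (T2.filter (fun v => pt v = false ∧ c1 v = b)).Nonempty := by
    rw [← card_pos]; omega
  obtain ⟨v, hv⟩ := h2
  obtain ⟨hv1, hv2, hv3⟩ := mem_filter.1 hv
  have h3 := hL.dgp v j
  have hd := num_d hN
  have h4 : (0 : ℝ) < ((nb G v ∩ prt pt j).card : ℝ) := by
    have h5 := (abs_le.1 h3).1
    have h6 := mul_le_mul_of_nonneg_right hN.θρ hd.le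
    have h7 := mul_le_mul_of_nonneg_right hN.ρ1 hd.le
    linarith
  have h5 : (nb G v ∩ prt pt j).Nonempty := by
    rw [← card_pos]; exact_mod_cast h4
  obtain ⟨u, hu⟩ := h5
  obtain ⟨hu1, hu2⟩ := mem_inter.1 hu
  refine ⟨u, ?_, mem_prt.1 hu2⟩
  have h6 := hL.bip v u (mem_nb.1 hu1)
  rw [(hL.c2P v hv1).1] at h6
  cases h : sd u
  · exact absurd h.symm h6
  · rfl

lemma hypA (hL : LB5 G d K C ρ π κ θ sd pt Q P2 F c0 c1 T1 T2) (hN : NumB d K ρ π θ θ3)
    (i : Bool) (b : ℕ) : ⌊2 * θ * d⌋₊ + ⌊π * d / 100⌋₊ <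
      (qtr sd pt false i \ BadS F c1 T2 b).card := by
  obtain ⟨u, hu1, hu2⟩ := ex_true hL hN i
  have h1 := hL.unm u
  have h2 : (nb G u ∩ prt pt (pt u)) \ (T1 ∪ T2) ⊆
      (qtr sd pt false i \ BadS F c1 T2 b) ∪ us F b := by
    intro v hv
    obtain ⟨hv1, hv2⟩ := mem_sdiff.1 hv
    obtain ⟨hv3, hv4⟩ := mem_inter.1 hv1
    by_cases h : v ∈ us F b
    · exact mem_union_right _ h
    · refine mem_union_left _ (mem_sdiff.2 ⟨mem_qtr.2 ⟨?_, ?_⟩, fun h' => ?_⟩)
      · have h6 := hL.bip u v (mem_nb.1 hv3)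
        rw [hu1] at h6
        cases h : sd v
        · rfl
        · exact absurd h.symm h6
      · rw [mem_prt.1 hv4, hu2]
      · rcases mem_union.1 h' with h' | h'
        · exact h h'
        · exact hv2 (mem_union_right _ (mem_filter.1 h').1)
  have h3 : (((nb G u ∩ prt pt (pt u)) \ (T1 ∪ T2)).card : ℝ) ≤
      (qtr sd pt false i \ BadS F c1 T2 b).card + (us F b).card := by
    exact_mod_cast (card_le_card h2).trans (card_union_le _ _)
  have h4 := hL.load b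
  have h5 := hN.A
  have h6 : ((⌊2 * θ * d⌋₊ + ⌊π * d / 100⌋₊ : ℕ) : ℝ) <
      ((qtr sd pt false i \ BadS F c1 T2 b).card : ℝ) := by linarith
  exact_mod_cast h6

lemma hypB (hL : LB5 G d K C ρ π κ θ sd pt Q P2 F c0 c1 T1 T2) (hN : NumB d K ρ π θ θ3)
    (x : V) (i : Bool) (b : ℕ) (hx : sd x = false) :
    ⌊2 * θ * d⌋₊ + ⌊π * d / 100⌋₊ + ⌊1000 * θ * d⌋₊ <
      ((nb G x ∩ prt pt i) \ BadS F c1 T2 b).card := by
  have h2 : nb G x ∩ prt pt i ⊆
      ((nb G x ∩ prt pt i) \ BadS F c1 T2 b) ∪ us F b := by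
    intro v hv
    by_cases h : v ∈ us F b
    · exact mem_union_right _ h
    · refine mem_union_left _ (mem_sdiff.2 ⟨hv, fun h' => ?_⟩)
      rcases mem_union.1 h' with h' | h'
      · exact h h'
      · have h6 := hL.bip x v (mem_nb.1 (mem_inter.1 hv).1)
        rw [hx, (hL.c2P v (mem_filter.1 h').1).1] at h6
        exact h6 rfl
  have h3 : ((nb G x ∩ prt pt i).card : ℝ) ≤
      ((nb G x ∩ prt pt i) \ BadS F c1 T2 b).card + (us F b).card := by
    exact_mod_cast (card_le_card h2).trans (card_union_le _ _)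
  have h4 := hL.load b
  have h5 := hN.B
  have h6 := (abs_le.1 (hL.dgp x i)).1
  have h7 : ((⌊2 * θ * d⌋₊ + ⌊π * d / 100⌋₊ + ⌊1000 * θ * d⌋₊ : ℕ) : ℝ) <
      (((nb G x ∩ prt pt i) \ BadS F c1 T2 b).card : ℝ) := by linarith
  exact_mod_cast h7

lemma sum_abs (hL : LB5 G d K C ρ π κ θ sd pt Q P2 F c0 c1 T1 T2) (A : Finset ℕ)
    (hA : A ⊆ Q false ∪ Q true ∪ P2) : |∑ b ∈ A, sg F sd b| ≤ K * A.card := by
  refine (abs_sum_le_sum_abs _ _).trans ?_
  calc ∑ b ∈ A, |sg F sd b| ≤ A.card • (K : ℤ) :=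
        sum_le_card_nsmul _ _ _ fun b hb => hL.sgK b (hA hb)
    _ = K * A.card := by rw [nsmul_eq_mul, mul_comm]

/-- the sum for the part `false` can be corrected by bounded numbers -/
lemma hypN (hL : LB5 G d K C ρ π κ θ sd pt Q P2 F c0 c1 T1 T2) (hN : NumB d K ρ π θ θ3)
    (hκ : κ ≤ π / 4) (hK : 1 ≤ K) :
    |((T1 ∩ qtr sd pt false false).card : ℤ) - (T1 ∩ qtr sd pt true false).card -
      ∑ b ∈ Q true, sg F sd b| ≤ ((4 * K + 1 : ℕ) : ℤ) * P2.card := by
  have hd := num_d hN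
  have heq : (sid sd false).card = (sid sd true).card := by
    have h1 := side_card sd pt false univ
    have h2 := side_card sd pt true univ
    simp only [univ_inter] at h1 h2
    rw [h1, h2, hL.eqs false, hL.eqs true]
  have hW := sum_sg_last5 G d sd F Q P2 c1 T1 hL.bip hL.deg hL.Flt heq hL.Qlt hL.Plt
    (fun v hv => hL.c1F v (mem_union_left _ hv)) hL.c1P
  have hW2 := sum_abs hL (Q false ∪ Q true ∪ P2) (Subset.refl _)
  have hQ2 := sum_abs hL (Q true)
    (subset_union_right.trans subset_union_left)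
  rw [hW, side_card sd pt false, side_card sd pt true] at hW2
  have hf := hL.hlf false
  have ht := hL.hlf true
  have hc1 : (Q false ∪ Q true ∪ P2).card ≤ (Q false).card + (Q true).card + P2.card :=
    (card_union_le _ _).trans (Nat.add_le_add_right (card_union_le _ _) _)
  have hf0 := hL.few false
  have hf1 := hL.few true
  have hg0 : (0 : ℝ) ≤ ((∑ b ∈ P1 d Q P2, need (Fo T1 c1 F) sd false b : ℕ) : ℝ) :=
    Nat.cast_nonneg _
  have hg1 : (0 : ℝ) ≤ ((∑ b ∈ P1 d Q P2, need (Fo T1 c1 F) sd true b : ℕ) : ℝ) :=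
    Nat.cast_nonneg _
  generalize ∑ b ∈ P1 d Q P2, need (Fo T1 c1 F) sd false b = n0 at hW2 hf0 hg0
  generalize ∑ b ∈ P1 d Q P2, need (Fo T1 c1 F) sd true b = n1 at hW2 hf1 hg1
  have hW3 : |(((T1 ∩ qtr sd pt false false).card : ℝ) + (T1 ∩ qtr sd pt false true).card) -
      ((T1 ∩ qtr sd pt true false).card + (T1 ∩ qtr sd pt true true).card) + n0 - n1| ≤
      K * ((Q false).card + (Q true).card + P2.card) := by
    have h1 : ((|(((T1 ∩ qtr sd pt false false).card + (T1 ∩ qtr sd pt false true).card : ℕ) : ℤ) -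
      ((T1 ∩ qtr sd pt true false).card + (T1 ∩ qtr sd pt true true).card : ℕ) + n0 - n1| : ℤ) : ℝ) ≤
      ((K * (Q false ∪ Q true ∪ P2).card : ℤ) : ℝ) := by exact_mod_cast hW2
    push_cast at h1
    refine h1.trans ?_
    refine mul_le_mul_of_nonneg_left ?_ (Nat.cast_nonneg _)
    exact_mod_cast hc1
  have hQ3 : |((∑ b ∈ Q true, sg F sd b : ℤ) : ℝ)| ≤ K * (Q true).card := by
    exact_mod_cast hQ2
  have k1 := (hL.Qc false).2
  have k2 := (hL.Qc true).2
  have k3 := hL.Pc.1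
  have hK0 : (1 : ℝ) ≤ K := by exact_mod_cast hK
  have key : |((T1 ∩ qtr sd pt false false).card : ℝ) - (T1 ∩ qtr sd pt true false).card -
      ((∑ b ∈ Q true, sg F sd b : ℤ) : ℝ)| ≤ (4 * K + 1) * P2.card := by
    set a := ((T1 ∩ qtr sd pt false false).card : ℝ)
    set a' := ((T1 ∩ qtr sd pt false true).card : ℝ)
    set e := ((T1 ∩ qtr sd pt true false).card : ℝ)
    set e' := ((T1 ∩ qtr sd pt true true).card : ℝ)
    set q := ((∑ b ∈ Q true, sg F sd b : ℤ) : ℝ)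
    set p := (P2.card : ℝ)
    have hp0 : 0 ≤ p := Nat.cast_nonneg _
    have m1 : κ * d ≤ π / 4 * d := mul_le_mul_of_nonneg_right hκ hd.le
    have m2 : θ * d ≤ π * d := mul_le_mul_of_nonneg_right hN.θπ hd.le
    have m3 : (K : ℝ) * ((Q false).card + (Q true).card + p) ≤ K * (2 * p) := by
      refine mul_le_mul_of_nonneg_left ?_ (by linarith)
      linarith
    have m4 : (K : ℝ) * (Q true).card ≤ K * (p / 2) := by
      refine mul_le_mul_of_nonneg_left ?_ (by linarith)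
      linarith
    have m5 : (K : ℝ) * (2 * p) = 2 * (K * p) := by ring
    have m6 : (K : ℝ) * (p / 2) = K * p / 2 := by ring
    have m7 : 0 ≤ (K : ℝ) * p := by positivity
    have m9 : 1 * p ≤ (K : ℝ) * p := mul_le_mul_of_nonneg_right hK0 hp0
    rw [m5] at m3
    rw [m6] at m4
    have m8 : (4 * (K : ℝ) + 1) * p = 4 * (K * p) + p := by ring
    rw [m8]
    rw [abs_le] at hW3 hQ3 hf ht ⊢
    constructor <;> linarith [hW3.1, hW3.2, hQ3.1, hQ3.2, hf.1, hf.2, ht.1, ht.2]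
  have h9 : ((|((T1 ∩ qtr sd pt false false).card : ℤ) - (T1 ∩ qtr sd pt true false).card -
      ∑ b ∈ Q true, sg F sd b| : ℤ) : ℝ) ≤ ((((4 * K + 1 : ℕ) : ℤ) * P2.card : ℤ) : ℝ) := by
    push_cast
    push_cast at key
    exact key
  exact_mod_cast h9

/-- the choice of the edges -/
lemma choice (hL : LB5 G d K C ρ π κ θ sd pt Q P2 F c0 c1 T1 T2) (hN : NumB d K ρ π θ θ3)
    (hκ : κ ≤ π / 4) (hK : 1 ≤ K) :
    ∃ (E : Finset (V × V × ℕ)) (g : ℕ → ℤ),
      XE G sd pt P2 (BadS F c1 T2) ⌊1000 * θ * d⌋₊ E ∧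
      (∀ b ∈ P2, cnt pt E false b + cnt pt E true b ≤ ⌊2 * θ * d⌋₊) ∧
      (∀ b ∈ P2, |g b| ≤ ((4 * K + 1 : ℕ) : ℤ)) ∧
      (∑ b ∈ P2, g b = ((T1 ∩ qtr sd pt false false).card : ℤ) -
        (T1 ∩ qtr sd pt true false).card - ∑ b ∈ Q true, sg F sd b) ∧
      (∀ b ∈ P2, sgp (Fp' F E) sd pt false b = g b) ∧
      ∀ b ∈ P2, sgp (Fp' F E) sd pt true b = sg F sd b - g b := by
  obtain ⟨g, hg1, hg2⟩ := exists_ints P2 (4 * K + 1) _ (hypN hL hN hκ hK)
  have hd := num_d hN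
  have hθ := hN.θ0
  set w : ℕ → ℤ := fun b => g b - sgp F sd pt false b with hw
  set m : Bool → ℕ → ℕ := fun i b => if i then (-(w b)).toNat else (w b).toNat with hm
  have hm1 : ∀ b, m false b + m true b = (w b).natAbs := by
    intro b
    simp only [hm, Bool.false_eq_true, if_false, if_true]
    omega
  have hμ : ∀ b ∈ P2, m false b + m true b ≤ ⌊2 * θ * d⌋₊ := by
    intro b hb
    rw [hm1]
    refine Nat.le_floor ?_
    have h1 : (((w b).natAbs : ℕ) : ℝ) = |((w b : ℤ) : ℝ)| := by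
      rw [Nat.cast_natAbs]
      push_cast
      rfl
    rw [h1]
    have h2 : |((g b : ℤ) : ℝ)| ≤ 4 * K + 1 := by
      have := hg1 b hb
      have h3 : ((|g b| : ℤ) : ℝ) ≤ (((4 * K + 1 : ℕ) : ℤ) : ℝ) := by exact_mod_cast this
      push_cast at h3
      exact h3
    have h3 : |((sgp F sd pt false b : ℤ) : ℝ)| ≤ θ * d := by
      have h4 : ((|sgp F sd pt false b| : ℤ) : ℝ) ≤ (((us F b).card : ℤ) : ℝ) := by
        exact_mod_cast sgp_le F sd pt false b
      push_cast at h4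
      exact h4.trans (hL.load b)
    have h4 := hN.dK
    simp only [hw]
    push_cast
    refine (abs_sub _ _).trans ?_
    linarith
  have hM : ∑ b ∈ P2, (m false b + m true b) ≤ ⌊π * d / 100⌋₊ * ⌊1000 * θ * d⌋₊ := by
    refine le_trans ?_ (hN.sat P2.card (by have := hL.Pc.2; linarith))
    calc ∑ b ∈ P2, (m false b + m true b) ≤ P2.card • ⌊2 * θ * d⌋₊ :=
          sum_le_card_nsmul _ _ _ hμ
      _ = P2.card * ⌊2 * θ * d⌋₊ := by rw [smul_eq_mul]
  obtain ⟨E, hX, hc⟩ := xpe G sd pt P2 (BadS F c1 T2) ⌊1000 * θ * d⌋₊ ⌊π * d / 100⌋₊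
    ⌊2 * θ * d⌋₊ m hL.bip hN.Δ hμ hM (fun i b _ => hypA hL hN i b)
    (fun x i b _ hx => hypB hL hN x i b hx)
  have hB : ∀ b, us F b ⊆ BadS F c1 T2 b := fun b => subset_union_left
  refine ⟨E, g, hX, ?_, hg1, hg2, ?_, ?_⟩
  · intro b hb
    rw [hc false b hb, hc true b hb]
    exact hμ b hb
  · intro b hb
    rw [hX.sgp hB, Bool.not_false, hc false b hb, hc true b hb]
    simp only [hm, Bool.false_eq_true, if_false, if_true]
    have : ((w b).toNat : ℤ) - ((-(w b)).toNat : ℤ) = w b := by omega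
    have h2 : w b = g b - sgp F sd pt false b := rfl
    linarith
  · intro b hb
    rw [hX.sgp hB, Bool.not_true, hc false b hb, hc true b hb, sg_split F sd pt b]
    simp only [hm, Bool.false_eq_true, if_false, if_true]
    have : ((w b).toNat : ℤ) - ((-(w b)).toNat : ℤ) = w b := by omega
    have h2 : w b = g b - sgp F sd pt false b := rfl
    linarith

end step

end Pool.Agent.Work.MP_db9399_x5_helper44
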